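import Mathlib
import Pool.Agent.Helper24.GR.Basic

set_option autoImplicit false

/-! GR-7: continuous filtrations. -/

namespace Pool.Agent.Helper24.GR

open Function Order Cardinal

universe u v

namespace Filt

variable {ι : Type v}

theorem union_le {κ : Type v} (f : κ → Set ι) (lam : Cardinal.{v}) (h0 : ℵ₀ ≤ lam)
    (h1 : #κ ≤ lam) (h2 : ∀ k, #(f k) ≤ lam) : #(⋃ k, f k : Set ι) ≤ lam :=
  (mk_iUnion_le f).trans ((mul_le_mul' h1 (ciSup_le' h2)).trans (mul_eq_self h0).le)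

theorem union_le_two (A B : Set ι) (lam : Cardinal.{v}) (h0 : ℵ₀ ≤ lam)
    (h1 : #A ≤ lam) (h2 : #B ≤ lam) : #(A ∪ B : Set ι) ≤ lam :=
  (mk_union_le A B).trans ((add_le_add h1 h2).trans (add_eq_self h0).le)

/-- One closing step. -/
def stp (Th : Finset ι → Set ι) (Z : Set ι) : Set ι :=
  Z ∪ ⋃ s : Finset Z, Th (s.map (Embedding.subtype _))

/-- The closure of `X` under `Th`. -/
def cl (Th : Finset ι → Set ι) (X : Set ι) : Set ι := ⋃ n : ℕ, (stp Th)^[n] X

variable {Th : Finset ι → Set ι} {X : Set ι}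

theorem subset_cl : X ⊆ cl Th X := fun _ hx => Set.mem_iUnion.2 ⟨0, hx⟩

theorem iter_mono : Monotone (fun n : ℕ => (stp Th)^[n] X) :=
  monotone_nat_of_le_succ fun n => by
    rw [iterate_succ_apply']
    exact Set.subset_union_left

theorem cl_closed (s : Finset ι) (hs : (s : Set ι) ⊆ cl Th X) : Th s ⊆ cl Th X := by
  classical
  obtain ⟨n, hn⟩ : ∃ n : ℕ, (s : Set ι) ⊆ (stp Th)^[n] X := by
    have h1 : ∀ x ∈ s, ∃ n : ℕ, x ∈ (stp Th)^[n] X := fun x hx => Set.mem_iUnion.1 (hs hx)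
    choose! f hf using h1
    exact ⟨s.sup f, fun x hx => iter_mono (Finset.le_sup (f := f) hx) (hf x hx)⟩
  intro x hx
  refine Set.mem_iUnion.2 ⟨n + 1, ?_⟩
  rw [iterate_succ_apply']
  refine Or.inr (Set.mem_iUnion.2 ⟨s.subtype (· ∈ (stp Th)^[n] X), ?_⟩)
  rw [Finset.subtype_map_of_mem hn]
  exact hx

theorem cl_subset {J : Set ι} (h1 : X ⊆ J) (h2 : ∀ s, Th s ⊆ J) : cl Th X ⊆ J := by
  refine Set.iUnion_subset fun n => ?_
  induction n with
  | zero => exact h1
  | succ n ih =>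
    rw [iterate_succ_apply']
    exact Set.union_subset ih (Set.iUnion_subset fun s => h2 _)

theorem mk_finset_le' (Z : Set ι) (lam : Cardinal.{v}) (h0 : ℵ₀ ≤ lam) (h1 : #Z ≤ lam) :
    #(Finset Z) ≤ lam := by
  rcases finite_or_infinite Z with h | h
  · exact (lt_aleph0_of_finite _).le.trans h0
  · rw [mk_finset_of_infinite]; exact h1

theorem mk_cl (lam : Cardinal.{v}) (h0 : ℵ₀ ≤ lam) (h1 : #X ≤ lam) (h2 : ∀ s, #(Th s) ≤ lam) :
    #(cl Th X) ≤ lam := by
  have h3 : ∀ n : ℕ, #((stp Th)^[n] X : Set ι) ≤ lam := by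
    intro n
    induction n with
    | zero => exact h1
    | succ n ih =>
      rw [iterate_succ_apply']
      exact union_le_two _ _ lam h0 ih (union_le _ lam h0 (mk_finset_le' _ lam h0 ih)
        fun s => h2 _)
  have h4 : cl Th X = ⋃ n : ULift.{v} ℕ, (stp Th)^[n.down] X := by
    ext x
    simp only [cl, Set.mem_iUnion]
    exact ⟨fun ⟨n, hn⟩ => ⟨⟨n⟩, hn⟩, fun ⟨n, hn⟩ => ⟨n.down, hn⟩⟩
  rw [h4]
  refine union_le _ lam h0 ?_ fun n => h3 n.down
  rw [mk_uLift, mk_nat, lift_aleph0]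
  exact h0

/-- The closing functions at stage `γ`. -/
def thet (Ψ : Finset ι → Ordinal.{v} → Set ι) (Φ : Set ι → Finset ι → Set ι)
    (γ : Ordinal.{v}) (H : Set ι) (s : Finset ι) : Set ι :=
  (⋃ δ < succ γ, Ψ s δ) ∪ Φ H s

/-- The next set. -/
def nxt {J : Set ι} (f : J → Ordinal.{v}) (Ψ : Finset ι → Ordinal.{v} → Set ι)
    (Φ : Set ι → Finset ι → Set ι) (γ : Ordinal.{v}) (H : Set ι) : Set ι :=
  cl (thet Ψ Φ γ H) (H ∪ {x | ∃ hx : x ∈ J, f ⟨x, hx⟩ = γ})

/-- The filtration. -/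
noncomputable def fil {J : Set ι} (f : J → Ordinal.{v}) (Ψ : Finset ι → Ordinal.{v} → Set ι)
    (Φ : Set ι → Finset ι → Set ι) (β : Ordinal.{v}) : Set ι :=
  ⋃ (γ : Ordinal.{v}) (_ : γ < β), nxt f Ψ Φ γ (fil f Ψ Φ γ)
termination_by β

end Filt

open Filt in
/-- GR-4a. Continuous filtrations (pure set theory). `Ψ s β` and `Φ H s` are the closing
functions. -/
theorem exists_filtration {ι : Type v} (J : Set ι) (hJ : ¬ J.Countable)
    (Ψ : Finset ι → Ordinal.{v} → Set ι)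
    (hΨJ : ∀ s β, Ψ s β ⊆ J)
    (hΨ : ∀ s β, Cardinal.mk (Ψ s β) ≤ max Cardinal.aleph0 β.card)
    (Φ : Set ι → Finset ι → Set ι)
    (hΦJ : ∀ H s, Φ H s ⊆ J)
    (hΦ : ∀ H s, (Φ H s).Countable) :
    ∃ G : Ordinal.{v} → Set ι, G 0 = ∅ ∧ Monotone G ∧ (∀ β, G β ⊆ J) ∧
      (∀ l, IsSuccLimit l → G l = ⋃ β < l, G β) ∧ G (Cardinal.mk J).ord = J ∧
      (∀ β, Cardinal.mk (G β) ≤ max Cardinal.aleph0 β.card) ∧
      (∀ β, ∀ s : Finset ι, (s : Set ι) ⊆ G β → ∀ γ < β, Ψ s γ ⊆ G β) ∧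
      (∀ β, ∀ s : Finset ι, (s : Set ι) ⊆ G (succ β) → Φ (G β) s ⊆ G (succ β)) := by
  classical
  obtain ⟨f, hf, hf'⟩ : ∃ f : J → Ordinal.{v}, Injective f ∧ ∀ j, f j < (#J).ord := by
    obtain ⟨r, wo, hr⟩ := exists_ord_eq J
    refine ⟨fun j => Ordinal.typein r j, Ordinal.typein_injective r, fun j => ?_⟩
    rw [hr]
    exact Ordinal.typein_lt_type r j
  set G := fil f Ψ Φ with hG
  have hGeq : ∀ β, G β = ⋃ (γ : Ordinal.{v}) (_ : γ < β), nxt f Ψ Φ γ (G γ) := by
    intro β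
    rw [hG, fil]
  have hle : ∀ γ β, γ < β → nxt f Ψ Φ γ (G γ) ⊆ G β := by
    intro γ β h
    rw [hGeq β]
    exact fun x hx => Set.mem_iUnion₂.2 ⟨γ, h, hx⟩
  have hself : ∀ γ, G γ ⊆ nxt f Ψ Φ γ (G γ) := fun γ =>
    Set.subset_union_left.trans subset_cl
  have hmono : Monotone G := by
    intro α β h
    rcases h.eq_or_lt with rfl | h
    · exact le_rfl
    · exact (hself α).trans (hle α β h)
  have hsucc : ∀ β, G (succ β) = nxt f Ψ Φ β (G β) := by
    intro β
    apply Set.Subset.antisymm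
    · rw [hGeq (succ β)]
      refine Set.iUnion₂_subset fun γ hγ => ?_
      rcases (lt_succ_iff.1 hγ).eq_or_lt with rfl | h
      · exact le_rfl
      · exact (hle γ β h).trans (hself β)
    · exact hle β _ (lt_succ β)
  have hGJ : ∀ β, G β ⊆ J := by
    intro β
    induction β using WellFoundedLT.induction with
    | ind β ih =>
      rw [hGeq β]
      refine Set.iUnion₂_subset fun γ hγ => ?_
      refine cl_subset (Set.union_subset (ih γ hγ) ?_) ?_
      · rintro x ⟨hx, -⟩; exact hx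
      · intro s
        exact Set.union_subset (Set.iUnion₂_subset fun δ _ => hΨJ _ _) (hΦJ _ _)
  have hcard : ∀ β : Ordinal.{v}, #(G β) ≤ max ℵ₀ β.card := by
    intro β
    induction β using WellFoundedLT.induction with
    | ind β ih =>
      rw [hGeq β]
      refine mk_biUnion_le_of_le (le_max_right _ _) (le_max_left _ _) _ fun γ hγ => ?_
      have h1 : #(nxt f Ψ Φ γ (G γ)) ≤ max ℵ₀ γ.card := by
        have h0 : ℵ₀ ≤ max ℵ₀ γ.card := le_max_left _ _
        refine mk_cl _ h0 (union_le_two _ _ _ h0 (ih γ hγ) ?_) fun s => union_le_two _ _ _ h0 ?_ ?_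
        · refine le_trans ?_ h0
          rw [mk_le_aleph0_iff]
          apply Set.Countable.to_subtype
          apply Set.Subsingleton.countable
          rintro x ⟨hx, hx'⟩ y ⟨hy, hy'⟩
          exact congrArg Subtype.val (hf (hx'.trans hy'.symm))
        · refine mk_biUnion_le_of_le ?_ h0 _ fun δ hδ => (hΨ s δ).trans ?_
          · rw [Ordinal.card_succ]
            exact (add_le_add (le_max_right _ _) (one_le_aleph0.trans h0)).trans
              (add_eq_self h0).le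
          · exact max_le_max le_rfl (Ordinal.card_le_card (lt_succ_iff.1 hδ))
        · exact (mk_le_aleph0_iff.2 (hΦ _ _).to_subtype).trans h0
      exact h1.trans (max_le_max le_rfl (Ordinal.card_le_card hγ.le))
  refine ⟨G, ?_, hmono, hGJ, ?_, ?_, hcard, ?_, ?_⟩
  · rw [hGeq 0]
    simp
  · intro l hl
    apply Set.Subset.antisymm
    · rw [hGeq l]
      refine Set.iUnion₂_subset fun γ hγ => ?_
      rw [← hsucc γ]
      exact fun x hx => Set.mem_iUnion₂.2 ⟨succ γ, hl.succ_lt hγ, hx⟩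
    · exact Set.iUnion₂_subset fun β hβ => hmono hβ.le
  · apply Set.Subset.antisymm (hGJ _)
    intro x hx
    apply hle (f ⟨x, hx⟩) _ (hf' _)
    exact subset_cl (Or.inr ⟨hx, rfl⟩)
  · intro β s hs γ hγ
    -- a common stage
    obtain ⟨δ, hδ, hγδ, hsδ⟩ : ∃ δ < β, γ ≤ δ ∧ (s : Set ι) ⊆ nxt f Ψ Φ δ (G δ) := by
      have h1 : ∀ x ∈ s, ∃ δ < β, x ∈ nxt f Ψ Φ δ (G δ) := by
        intro x hx
        have h2 := hs hx
        rw [hGeq β] at h2
        obtain ⟨δ, hδ, h3⟩ := Set.mem_iUnion₂.1 h2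
        exact ⟨δ, hδ, h3⟩
      choose! g hg hg' using h1
      have h4 : ∀ δ δ', δ ≤ δ' → nxt f Ψ Φ δ (G δ) ⊆ nxt f Ψ Φ δ' (G δ') := by
        intro δ δ' h
        rw [← hsucc, ← hsucc]
        exact hmono (succ_le_succ h)
      clear hs
      induction s using Finset.induction_on with
      | empty => exact ⟨γ, hγ, le_rfl, by simp⟩
      | insert x s hx ih =>
        obtain ⟨δ, hδ, hγδ, hsδ⟩ := ih (fun y hy => hg y (Finset.mem_insert_of_mem hy))
          (fun y hy => hg' y (Finset.mem_insert_of_mem hy))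
        refine ⟨max δ (g x), max_lt hδ (hg x (Finset.mem_insert_self _ _)),
          hγδ.trans (le_max_left _ _), ?_⟩
        rw [Finset.coe_insert]
        apply Set.insert_subset
        · exact h4 _ _ (le_max_right _ _) (hg' x (Finset.mem_insert_self _ _))
        · exact hsδ.trans (h4 _ _ (le_max_left _ _))
    refine Set.Subset.trans ?_ (hle δ β hδ)
    refine Set.Subset.trans ?_ (cl_closed s hsδ)
    exact fun x hx => Or.inl (Set.mem_iUnion₂.2 ⟨γ, lt_succ_iff.2 hγδ, hx⟩)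
  · intro β s hs
    rw [hsucc] at hs ⊢
    refine Set.Subset.trans ?_ (cl_closed s hs)
    exact Set.subset_union_right

end Pool.Agent.Helper24.GR
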