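import Mathlib
import Pool.Agent.Helper24.GR.Basic

set_option autoImplicit false

/-! GR-11: orientation by Hall's theorem. -/

namespace Pool.Agent.Helper24.GR

open Function

universe u v

variable {V : Type u} {E : Type v}

namespace EO

/-- The edges of `B` touching the finite set `X`, as a finset. -/
noncomputable def tou (D : Dig V E) (B : Set E) (hB : LocFin D B) (X : Finset V) : Finset E :=
  (Set.Finite.biUnion X.finite_toSet (fun v _ => hB v)).toFinset

theorem mem_tou {D : Dig V E} {B : Set E} {hB : LocFin D B} {X : Finset V} {e : E} :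
    e ∈ tou D B hB X ↔ e ∈ B ∧ (D.src e ∈ X ∨ D.tgt e ∈ X) := by
  unfold tou
  simp only [Set.Finite.mem_toFinset, Set.mem_iUnion, Set.mem_ofPred_eq, Finset.mem_coe]
  constructor
  · rintro ⟨v, hv, he, rfl | rfl⟩
    · exact ⟨he, Or.inl hv⟩
    · exact ⟨he, Or.inr hv⟩
  · rintro ⟨he, h | h⟩
    · exact ⟨_, h, he, Or.inl rfl⟩
    · exact ⟨_, h, he, Or.inr rfl⟩

theorem ncard_eq (D : Dig V E) (B : Set E) (hB : LocFin D B) (X : Finset V) (P : E → Prop)
    [DecidablePred P] (hP : ∀ e, P e → (D.src e ∈ X ∨ D.tgt e ∈ X)) :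
    {e | e ∈ B ∧ P e}.ncard = ((tou D B hB X).filter P).card := by
  rw [← Set.ncard_coe_finset]
  congr 1
  ext e
  simp only [Set.mem_ofPred_eq, Finset.coe_filter, mem_tou]
  constructor
  · rintro ⟨h1, h2⟩; exact ⟨⟨h1, hP e h2⟩, h2⟩
  · rintro ⟨⟨h1, -⟩, h2⟩; exact ⟨h1, h2⟩

open Classical in
theorem sum_in (D : Dig V E) (B : Set E) (hB : LocFin D B) (X : Finset V) :
    ∑ v ∈ X, {e | e ∈ B ∧ D.tgt e = v}.ncard =
      ((tou D B hB X).filter (fun e => D.tgt e ∈ X)).card := by
  rw [Finset.card_eq_sum_card_fiberwise (f := D.tgt) (t := X)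
    (fun e he => by simpa using (Finset.mem_filter.1 he).2)]
  refine Finset.sum_congr rfl fun v hv => ?_
  rw [ncard_eq D B hB X (fun e => D.tgt e = v) (by rintro e rfl; exact Or.inr hv)]
  congr 1
  ext e
  simp only [Finset.mem_filter]
  constructor
  · rintro ⟨h1, h2⟩; exact ⟨⟨h1, h2 ▸ hv⟩, h2⟩
  · rintro ⟨⟨h1, -⟩, h2⟩; exact ⟨h1, h2⟩

open Classical in
theorem sum_out (D : Dig V E) (B : Set E) (hB : LocFin D B) (X : Finset V) :
    ∑ v ∈ X, {e | e ∈ B ∧ D.src e = v}.ncard =
      ((tou D B hB X).filter (fun e => D.src e ∈ X)).card := by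
  rw [Finset.card_eq_sum_card_fiberwise (f := D.src) (t := X)
    (fun e he => by simpa using (Finset.mem_filter.1 he).2)]
  refine Finset.sum_congr rfl fun v hv => ?_
  rw [ncard_eq D B hB X (fun e => D.src e = v) (by rintro e rfl; exact Or.inl hv)]
  congr 1
  ext e
  simp only [Finset.mem_filter]
  constructor
  · rintro ⟨h1, h2⟩; exact ⟨⟨h1, h2 ▸ hv⟩, h2⟩
  · rintro ⟨⟨h1, -⟩, h2⟩; exact ⟨h1, h2⟩

theorem deg_eq {D : Dig V E} {B : Set E} (hB : Bal D B) (v : V) :
    {e | e ∈ B ∧ D.src e = v}.ncard = {e | e ∈ B ∧ D.tgt e = v}.ncard := by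
  have := hB.2 v
  unfold imb at this
  omega

open Classical in
/-- The handshake identity. -/
theorem hand (D : Dig V E) (B : Set E) (hB : LocFin D B) (c : V → Bool) (X : Finset V) :
    ((tou D B hB X).filter (fun e => D.src e ∈ X)).card +
      ((tou D B hB X).filter (fun e => D.tgt e ∈ X)).card =
    2 * ((tou D B hB X).filter (fun e => D.src e ∈ X ∧ D.tgt e ∈ X)).card +
      ((tou D B hB X).filter (fun e => Xor (D.src e ∈ X) (D.tgt e ∈ X) ∧
        c (D.src e) = c (D.tgt e))).card +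
      ((tou D B hB X).filter (fun e => Xor (D.src e ∈ X) (D.tgt e ∈ X) ∧
        c (D.src e) ≠ c (D.tgt e))).card := by
  simp only [Finset.card_filter, Finset.mul_sum, ← Finset.sum_add_distrib]
  refine Finset.sum_congr rfl fun e _ => ?_
  by_cases h1 : D.src e ∈ X <;> by_cases h2 : D.tgt e ∈ X <;>
    by_cases h3 : c (D.src e) = c (D.tgt e) <;> simp [h1, h2, h3, Xor]

theorem counts (D : Dig V E) (B : Set E) (hB : Bal D B) (c : V → Bool) (X : Finset V)
    (hc : {e | e ∈ B ∧ Xor (D.src e ∈ X) (D.tgt e ∈ X) ∧ c (D.src e) = c (D.tgt e)}.ncard ≤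
      {e | e ∈ B ∧ Xor (D.src e ∈ X) (D.tgt e ∈ X) ∧ c (D.src e) ≠ c (D.tgt e)}.ncard) :
    {e | e ∈ B ∧ (D.src e ∈ X ∧ D.tgt e ∈ X)}.ncard +
      {e | e ∈ B ∧ Xor (D.src e ∈ X) (D.tgt e ∈ X) ∧ c (D.src e) = c (D.tgt e)}.ncard ≤
        ∑ v ∈ X, {e | e ∈ B ∧ D.tgt e = v}.ncard ∧
    ∑ v ∈ X, {e | e ∈ B ∧ D.tgt e = v}.ncard ≤
      {e | e ∈ B ∧ (D.src e ∈ X ∧ D.tgt e ∈ X)}.ncard +
      {e | e ∈ B ∧ Xor (D.src e ∈ X) (D.tgt e ∈ X) ∧ c (D.src e) ≠ c (D.tgt e)}.ncard := by
  classical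
  have hXor : ∀ (e : E), Xor (D.src e ∈ X) (D.tgt e ∈ X) →
      (D.src e ∈ X ∨ D.tgt e ∈ X) := fun e he => by
    rcases he with he | he
    · exact Or.inl he.1
    · exact Or.inr he.1
  have h1 := hand D B hB.1 c X
  have h2 := sum_in D B hB.1 X
  have h3 := sum_out D B hB.1 X
  have h4 : ∑ v ∈ X, {e | e ∈ B ∧ D.src e = v}.ncard =
      ∑ v ∈ X, {e | e ∈ B ∧ D.tgt e = v}.ncard :=
    Finset.sum_congr rfl fun v _ => deg_eq hB v
  rw [ncard_eq D B hB.1 X (fun e => Xor (D.src e ∈ X) (D.tgt e ∈ X) ∧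
      c (D.src e) = c (D.tgt e)) (fun e he => hXor e he.1),
    ncard_eq D B hB.1 X (fun e => Xor (D.src e ∈ X) (D.tgt e ∈ X) ∧
      c (D.src e) ≠ c (D.tgt e)) (fun e he => hXor e he.1)] at hc ⊢
  rw [ncard_eq D B hB.1 X (fun e => D.src e ∈ X ∧ D.tgt e ∈ X) (fun e he => Or.inl he.1)]
  omega

end EO

theorem euler_orient (D : Dig V E) [LinearOrder V] (B : Set E) (hB : Bal D B) (c : V → Bool)
    (hc : ∀ X : Finset V,
      {e | e ∈ B ∧ Xor (D.src e ∈ X) (D.tgt e ∈ X) ∧ c (D.src e) = c (D.tgt e)}.ncard ≤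
      {e | e ∈ B ∧ Xor (D.src e ∈ X) (D.tgt e ∈ X) ∧ c (D.src e) ≠ c (D.tgt e)}.ncard) :
    ∃ Δ ⊆ B, Bal D Δ ∧ ∀ e ∈ B, c (D.src e) = c (D.tgt e) →
      (D.flip Δ).src e < (D.flip Δ).tgt e := by
  classical
  set d : V → ℕ := fun v => {e | e ∈ B ∧ D.tgt e = v}.ncard with hd
  set h : B → Finset V := fun e => if c (D.src e) = c (D.tgt e) then {max (D.src e) (D.tgt e)}
    else {D.src e, D.tgt e} with hh
  -- the counting facts
  have hcount := fun X : Finset V => EO.counts D B hB c X (hc X)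
  have hfinX : ∀ (X : Finset V) (P : E → Prop), (∀ e, P e → (D.src e ∈ X ∨ D.tgt e ∈ X)) →
      {e | e ∈ B ∧ P e}.Finite := by
    intro X P hP
    refine (EO.tou D B hB.1 X).finite_toSet.subset ?_
    rintro e ⟨he, hPe⟩
    exact EO.mem_tou.2 ⟨he, hP e hPe⟩
  have hXor : ∀ (X : Finset V) (e : E), Xor (D.src e ∈ X) (D.tgt e ∈ X) →
      (D.src e ∈ X ∨ D.tgt e ∈ X) := fun X e he => by
    rcases he with he | he
    · exact Or.inl he.1
    · exact Or.inr he.1
  have hdisj : ∀ (X : Finset V) (Q : E → Prop), Disjoint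
      {e | e ∈ B ∧ (D.src e ∈ X ∧ D.tgt e ∈ X)}
      {e | e ∈ B ∧ Xor (D.src e ∈ X) (D.tgt e ∈ X) ∧ Q e} := by
    intro X Q
    rw [Set.disjoint_left]
    rintro e ⟨-, h1, h2⟩ ⟨-, h3 | h3, -⟩
    · exact h3.2 h2
    · exact h3.2 h1
  -- from edges to slots
  obtain ⟨f, hf, hf'⟩ : ∃ f : B → (Σ v, Fin (d v)), Injective f ∧
      ∀ e, f e ∈ (h e).sigma (fun v => (Finset.univ : Finset (Fin (d v)))) := by
    refine (Finset.all_card_le_biUnion_card_iff_exists_injective
      (fun e : B => (h e).sigma (fun v => (Finset.univ : Finset (Fin (d v)))))).1 ?_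
    intro s
    have h1 : (s.biUnion (fun e : B => (h e).sigma
        (fun v => (Finset.univ : Finset (Fin (d v)))))) =
        (s.biUnion h).sigma (fun v => (Finset.univ : Finset (Fin (d v)))) := by
      ext ⟨v, i⟩
      simp [Finset.mem_biUnion, Finset.mem_sigma]
    rw [h1, Finset.card_sigma]
    simp only [Finset.card_univ, Fintype.card_fin]
    refine le_trans ?_ (hcount (s.biUnion h)).1
    rw [← Set.ncard_union_eq (hdisj _ _) (hfinX _ _ fun e he => Or.inl he.1)
      (hfinX _ _ fun e he => hXor _ e he.1), ← Finset.card_map (Embedding.subtype _),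
      ← Set.ncard_coe_finset]
    refine Set.ncard_le_ncard ?_ (Set.Finite.union (hfinX _ _ fun e he => Or.inl he.1)
      (hfinX _ _ fun e he => hXor _ e he.1))
    intro e he
    obtain ⟨e', he', rfl⟩ := Finset.mem_map.1 (Finset.mem_coe.1 he)
    change (e' : E) ∈ _
    have hsub : ∀ v ∈ h e', v ∈ s.biUnion h := fun v hv => Finset.mem_biUnion.2 ⟨e', he', hv⟩
    by_cases h3 : c (D.src e') = c (D.tgt e')
    · have h4 : max (D.src e') (D.tgt e') ∈ s.biUnion h := hsub _ (by simp [hh, h3])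
      have h5 : D.src e' ∈ s.biUnion h ∨ D.tgt e' ∈ s.biUnion h := by
        rcases max_choice (D.src e') (D.tgt e') with h6 | h6
        · rw [h6] at h4; exact Or.inl h4
        · rw [h6] at h4; exact Or.inr h4
      by_cases h6 : D.src e' ∈ s.biUnion h <;> by_cases h7 : D.tgt e' ∈ s.biUnion h
      · exact Or.inl ⟨e'.2, h6, h7⟩
      · exact Or.inr ⟨e'.2, Or.inl ⟨h6, h7⟩, h3⟩
      · exact Or.inr ⟨e'.2, Or.inr ⟨h7, h6⟩, h3⟩
      · exact absurd h5 (by tauto)
    · have h6 : D.src e' ∈ s.biUnion h := hsub _ (by simp [hh, h3])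
      have h7 : D.tgt e' ∈ s.biUnion h := hsub _ (by simp [hh, h3])
      exact Or.inl ⟨e'.2, h6, h7⟩
  -- from slots to edges
  have htfin : ∀ v : V, {e : B | v ∈ h e}.Finite := by
    intro v
    apply Set.Finite.of_finite_image (f := Subtype.val) _ Subtype.val_injective.injOn
    refine (hB.1 v).subset ?_
    rintro _ ⟨e, he, rfl⟩
    refine ⟨e.2, ?_⟩
    change v ∈ h e at he
    by_cases h3 : c (D.src e) = c (D.tgt e)
    · simp only [hh, h3, if_true, Finset.mem_singleton] at he
      rcases max_choice (D.src e) (D.tgt e) with h6 | h6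
      · left; rw [he, h6]
      · right; rw [he, h6]
    · simp only [hh, h3, if_false, Finset.mem_insert, Finset.mem_singleton] at he
      rcases he with he | he
      · left; exact he.symm
      · right; exact he.symm
  obtain ⟨g, hg, hg'⟩ : ∃ g : (Σ v, Fin (d v)) → B, Injective g ∧
      ∀ s, s.1 ∈ h (g s) := by
    have hHall := (Finset.all_card_le_biUnion_card_iff_exists_injective
      (fun s : (Σ v, Fin (d v)) => (htfin s.1).toFinset)).1 ?_
    · obtain ⟨g, hg, hg'⟩ := hHall
      refine ⟨g, hg, fun s => ?_⟩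
      have h1 := (Set.Finite.mem_toFinset (htfin s.1)).1 (hg' s)
      exact h1
    intro t
    set X : Finset V := t.image Sigma.fst with hX
    have h1 : t.card ≤ ∑ v ∈ X, d v := by
      have h2 : t ⊆ X.sigma (fun v => (Finset.univ : Finset (Fin (d v)))) := by
        rintro ⟨v, i⟩ hs
        simp only [Finset.mem_sigma, Finset.mem_univ, and_true]
        exact Finset.mem_image_of_mem _ hs
      refine (Finset.card_le_card h2).trans ?_
      rw [Finset.card_sigma]
      simp
    refine h1.trans ((hcount X).2.trans ?_)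
    rw [← Set.ncard_union_eq (hdisj _ _) (hfinX _ _ fun e he => Or.inl he.1)
      (hfinX _ _ fun e he => hXor _ e he.1), ← Finset.card_map (Embedding.subtype _),
      ← Set.ncard_coe_finset]
    refine Set.ncard_le_ncard ?_ (Finset.finite_toSet _)
    intro e he
    have key : ∀ (heB : e ∈ B) (v : V), v ∈ X → v ∈ h ⟨e, heB⟩ →
        e ∈ (t.biUnion (fun s : (Σ v, Fin (d v)) => (htfin s.1).toFinset)).map
          (Embedding.subtype _) := by
      intro heB v hv hvh
      obtain ⟨s, hs, rfl⟩ := Finset.mem_image.1 hv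
      refine Finset.mem_map.2 ⟨⟨e, heB⟩, Finset.mem_biUnion.2 ⟨s, hs, ?_⟩, rfl⟩
      rw [Set.Finite.mem_toFinset]
      exact hvh
    rw [Finset.mem_coe]
    rcases he with ⟨heB, h6, h7⟩ | ⟨heB, h5, h3⟩
    · by_cases h3 : c (D.src e) = c (D.tgt e)
      · refine key heB (max (D.src e) (D.tgt e)) ?_ (by simp [hh, h3])
        rcases max_choice (D.src e) (D.tgt e) with h8 | h8
        · rw [h8]; exact h6
        · rw [h8]; exact h7
      · exact key heB _ h6 (by simp [hh, h3])
    · rcases hXor X e h5 with h5 | h5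
      · exact key heB _ h5 (by simp [hh, h3])
      · exact key heB _ h5 (by simp [hh, h3])
  obtain ⟨k, hk, hk'⟩ := Embedding.schroeder_bernstein_of_rel hf hg
    (fun (e : B) (s : Σ v, Fin (d v)) => s.1 ∈ h e)
    (fun e => (Finset.mem_sigma.1 (hf' e)).1)
    hg'
  set Δ : Set E := {e | ∃ he : e ∈ B, (k ⟨e, he⟩).1 = D.src e} with hΔ
  have hends : ∀ e : B, (k e).1 = D.src e ∨ (k e).1 = D.tgt e := by
    intro e
    have h1 := hk' e
    by_cases h3 : c (D.src e) = c (D.tgt e)
    · simp only [hh, h3, if_true, Finset.mem_singleton] at h1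
      rcases max_choice (D.src e) (D.tgt e) with h6 | h6
      · left; rw [h1, h6]
      · right; rw [h1, h6]
    · simp only [hh, h3, if_false, Finset.mem_insert, Finset.mem_singleton] at h1
      exact h1
  have hΔB : Δ ⊆ B := fun e he => he.1
  refine ⟨Δ, hΔB, ⟨hB.1.mono hΔB, fun v => ?_⟩, ?_⟩
  · -- the slots at `v`
    have h1 : {e | e ∈ B \ Δ ∧ D.tgt e = v}.ncard + {e | e ∈ Δ ∧ D.src e = v}.ncard = d v := by
      rw [← Set.ncard_union_eq ?_ ((hB.1.mono Set.sdiff_subset).tgt v) ((hB.1.mono hΔB).src v)]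
      · have h2 : ({e | e ∈ B \ Δ ∧ D.tgt e = v} ∪ {e | e ∈ Δ ∧ D.src e = v}) =
            Subtype.val '' {e : B | (k e).1 = v} := by
          ext e
          simp only [Set.mem_union, Set.mem_ofPred_eq, Set.mem_image, Set.mem_sdiff]
          constructor
          · rintro (⟨⟨heB, heΔ⟩, rfl⟩ | ⟨⟨heB, heΔ⟩, rfl⟩)
            · refine ⟨⟨e, heB⟩, ?_, rfl⟩
              rcases hends ⟨e, heB⟩ with h3 | h3
              · exact absurd ⟨heB, h3⟩ heΔ
              · exact h3
            · exact ⟨⟨e, heB⟩, heΔ, rfl⟩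
          · rintro ⟨⟨e', heB⟩, h3, rfl⟩
            change e' ∈ B at heB
            by_cases h4 : e' ∈ Δ
            · right
              obtain ⟨h5, h6⟩ := h4
              exact ⟨⟨h5, h6⟩, h6.symm.trans h3⟩
            · left
              refine ⟨⟨heB, h4⟩, ?_⟩
              rcases hends ⟨e', heB⟩ with h5 | h5
              · exact absurd ⟨heB, h5⟩ h4
              · exact h5.symm.trans h3
        rw [h2, Set.ncard_image_of_injective _ Subtype.val_injective]
        let K := Equiv.ofBijective k hk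
        have h3 : {e : B | (k e).1 = v} = K.symm '' (Set.range (fun i : Fin (d v) => (⟨v, i⟩ : Σ v, Fin (d v)))) := by
          ext e
          simp only [Set.mem_ofPred_eq, Set.mem_image, Set.mem_range, exists_exists_eq_and]
          constructor
          · intro h4
            refine ⟨Fin.cast (by rw [h4]) (k e).2, ?_⟩
            rw [Equiv.symm_apply_eq]
            change _ = k e
            apply Sigma.ext
            · exact h4.symm
            · generalize k e = q at h4
              obtain ⟨q1, q2⟩ := q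
              cases h4
              rfl
          · rintro ⟨i, rfl⟩
            have : k (K.symm ⟨v, i⟩) = ⟨v, i⟩ := K.apply_symm_apply _
            rw [this]
        have h4 : Injective (fun i : Fin (d v) => (⟨v, i⟩ : Σ v, Fin (d v))) :=
          fun i j hij => by simpa using hij
        rw [h3, Set.ncard_image_of_injective _ K.symm.injective, ← Set.image_univ,
          Set.ncard_image_of_injective _ h4, Set.ncard_univ,
          Nat.card_eq_fintype_card, Fintype.card_fin]
      · rw [Set.disjoint_left]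
        rintro e ⟨he, -⟩ ⟨he', -⟩
        exact he.2 he'
    have h2 : d v = {e | e ∈ B \ Δ ∧ D.tgt e = v}.ncard + {e | e ∈ Δ ∧ D.tgt e = v}.ncard := by
      rw [← ncard_sep_union ((hB.1.mono Set.sdiff_subset).tgt v) ((hB.1.mono hΔB).tgt v)
        Set.disjoint_sdiff_left, Set.sdiff_union_of_subset hΔB]
    unfold imb
    omega
  · intro e he h3
    have h1 := hk' ⟨e, he⟩
    simp only [hh, h3, if_true, Finset.mem_singleton] at h1
    by_cases h4 : e ∈ Δ
    · rw [flip_src_of_mem h4, flip_tgt_of_mem h4]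
      obtain ⟨h5, h6⟩ := h4
      have h7 : D.src e = max (D.src e) (D.tgt e) := h6.symm.trans h1
      have h8 : D.tgt e ≤ D.src e := by rw [h7]; exact le_max_right _ _
      exact lt_of_le_of_ne h8 (D.noloop e).symm
    · rw [flip_src_of_notMem h4, flip_tgt_of_notMem h4]
      have h5 : (k ⟨e, he⟩).1 ≠ D.src e := fun h6 => h4 ⟨he, h6⟩
      rcases max_choice (D.src e) (D.tgt e) with h6 | h6
      · exact absurd (h1.trans h6) h5
      · have h8 : D.src e ≤ D.tgt e := by rw [← h6]; exact le_max_left _ _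
        exact lt_of_le_of_ne h8 (D.noloop e)

end Pool.Agent.Helper24.GR
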